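import Pool.Agent.Hhelper95.NilAug.Words

/-!
# Hankel ranks and nil augmentation ideals

Realisation of a functional on a group algebra, with Hankel matrices of small rank, by a word of
matrix pencils.
-/

open Matrix
open scoped Pointwise

namespace Pool.Agent.Hhelper95.NilAug

variable {F K G : Type*} [Field F] [Field K] [Algebra F K] [Group G] [DecidableEq G]

/-- The element `∑ xₛ (s - 1)`. -/
noncomputable def vel (S : Finset G) (x : S → K) : MonoidAlgebra K G :=
  ∑ s : S, x s • (MonoidAlgebra.of K G s - 1)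

/-- Products of elements `vel`. -/
noncomputable def Vp (S : Finset G) (x : ℕ → S → K) : ℕ → MonoidAlgebra K G
  | 0 => 1
  | (l + 1) => vel S (x l) * Vp S x l

omit [DecidableEq G] in
theorem Vp_add (S : Finset G) (x : ℕ → S → K) (i l : ℕ) :
    Vp S x (i + l) = Vp S (fun j => x (i + j)) l * Vp S x i := by
  induction l with
  | zero => simp [Vp]
  | succ n ih =>
    have h1 : Vp S x (i + (n + 1)) = vel S (x (i + n)) * Vp S x (i + n) := rfl
    have h2 : Vp S (fun j => x (i + j)) (n + 1)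
        = vel S (x (i + n)) * Vp S (fun j => x (i + j)) n := rfl
    rw [h1, ih, h2, mul_assoc]

omit [DecidableEq G] in
theorem Vp_periodic (S : Finset G) (x : ℕ → S → K) (N : ℕ) (hx : ∀ j, x (j + N) = x j) (k : ℕ) :
    Vp S x (N * k) = (Vp S x N) ^ k := by
  have hper : ∀ k j, x (N * k + j) = x j := by
    intro k
    induction k with
    | zero => intro j; simp
    | succ n ih =>
      intro j
      have e : N * (n + 1) + j = N * n + j + N := by ring
      rw [e, hx, ih]
  induction k with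
  | zero => simp [Vp]
  | succ n ih =>
    have e : N * (n + 1) = N * n + N := by ring
    rw [e, Vp_add, ih, pow_succ']
    congr 1
    have : (fun j => x (N * n + j)) = x := funext (fun j => hper n j)
    rw [this]

omit [DecidableEq G] in
theorem vel_mem (S : Finset G) (x : S → K) :
    vel S x ∈ Ideal.span {y : MonoidAlgebra K G | ∃ g : G, y = MonoidAlgebra.of K G g - 1} := by
  apply Submodule.sum_mem
  intro s _
  have h : x s • (MonoidAlgebra.of K G s - 1)
      = (algebraMap K (MonoidAlgebra K G) (x s)) * (MonoidAlgebra.of K G s - 1) := by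
    rw [Algebra.smul_def]
  rw [h]
  exact Ideal.mul_mem_left _ _ (Ideal.subset_span ⟨_, rfl⟩)

omit [DecidableEq G] in
theorem Vp_mem (S : Finset G) (x : ℕ → S → K) (l : ℕ) :
    Vp S x (l + 1) ∈ Ideal.span {y : MonoidAlgebra K G | ∃ g : G, y = MonoidAlgebra.of K G g - 1} := by
  rw [Nat.add_comm l 1, Vp_add]
  apply Ideal.mul_mem_left
  have h : Vp S x 1 = vel S (x 0) := by simp [Vp]
  rw [h]
  exact vel_mem S _

/-- The vector attached to `h`: the restriction of `g ↦ ψ (g * h)` to `S ^ n`. -/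
def cvec (S : Finset G) (ψ : G → F) (n : ℕ) (h : G) : G → F :=
  fun g => if g ∈ S ^ n then ψ (g * h) else 0

/-- The transition operator. -/
def Top (S : Finset G) (n : ℕ) (s : G) : (G → F) →ₗ[F] (G → F) where
  toFun φ := fun g => if g ∈ S ^ n then φ (g * s) else 0
  map_add' φ φ' := by
    funext g
    simp only [Pi.add_apply]
    split_ifs <;> simp
  map_smul' c φ := by
    funext g
    simp only [Pi.smul_apply, smul_eq_mul, RingHom.id_apply]
    split_ifs <;> simp

theorem Top_cvec (S : Finset G) (ψ : G → F) (n : ℕ) (s h : G) (hs : s ∈ S) :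
    Top S n s (cvec S ψ (n + 1) h) = cvec S ψ n (s * h) := by
  funext g
  simp only [Top, cvec, LinearMap.coe_mk, AddHom.coe_mk]
  by_cases hg : g ∈ S ^ n
  · have : g * s ∈ S ^ (n + 1) := by
      rw [pow_succ]
      exact Finset.mul_mem_mul hg hs
    simp [hg, this, mul_assoc]
  · simp [hg]

/-- The space spanned by the vectors at level `j`. -/
def Wsp (S : Finset G) (ψ : G → F) (m j : ℕ) : Submodule F (G → F) :=
  Submodule.span F (Set.range fun h : (S ^ j : Finset G) => cvec S ψ (m - j) h)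

/-- Coordinates on the spaces `Wsp`. -/
structure Rlz {w : ℕ} (S : Finset G) (ψ : G → F) (m : ℕ)
    (E : ℕ → ((G → F) →ₗ[F] (Fin w → F))) (R : ℕ → ((Fin w → F) →ₗ[F] (G → F))) : Prop where
  hRE : ∀ j ≤ m, ∀ φ ∈ Wsp S ψ m j, R j (E j φ) = φ
  hR : ∀ j ≤ m, ∀ v, R j v ∈ Wsp S ψ m j

theorem exists_Rlz {w : ℕ} (S : Finset G) (ψ : G → F) (m : ℕ)
    (h : ∀ j ≤ m, (Matrix.of fun (g : (S ^ (m - j) : Finset G)) (h : (S ^ j : Finset G)) =>
      ψ (g * h)).rank ≤ w) :
    ∃ (E : ℕ → ((G → F) →ₗ[F] (Fin w → F))) (R : ℕ → ((Fin w → F) →ₗ[F] (G → F))),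
      Rlz S ψ m E R := by
  classical
  have key : ∀ j, ∃ (E : (G → F) →ₗ[F] (Fin w → F)) (R : (Fin w → F) →ₗ[F] (G → F)),
      j ≤ m → (∀ φ ∈ Wsp S ψ m j, R (E φ) = φ) ∧ ∀ v, R v ∈ Wsp S ψ m j := by
    intro j
    by_cases hj : j ≤ m
    swap
    · exact ⟨0, 0, fun h => absurd h hj⟩
    have : Module.Finite F (Wsp S ψ m j) := by
      unfold Wsp
      exact Module.Finite.span_of_finite F (Set.finite_range _)
    -- extension by zero
    let ι : ((S ^ (m - j) : Finset G) → F) →ₗ[F] (G → F) :=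
      { toFun := fun φ g => if hg : g ∈ S ^ (m - j) then φ ⟨g, hg⟩ else 0
        map_add' := by
          intro φ φ'
          funext g
          simp only [Pi.add_apply]
          split_ifs <;> simp
        map_smul' := by
          intro c φ
          funext g
          simp only [Pi.smul_apply, smul_eq_mul, RingHom.id_apply]
          split_ifs <;> simp }
    have hW : Wsp S ψ m j ≤ Submodule.map ι (Submodule.span F (Set.range
        (Matrix.of fun (g : (S ^ (m - j) : Finset G)) (h : (S ^ j : Finset G)) =>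
          ψ (g * h)).col)) := by
      unfold Wsp
      rw [Submodule.span_le]
      rintro _ ⟨h, rfl⟩
      refine ⟨_, Submodule.subset_span ⟨h, rfl⟩, ?_⟩
      funext g
      simp only [ι, LinearMap.coe_mk, AddHom.coe_mk, cvec]
      split_ifs <;> rfl
    have hfin : Module.finrank F (Wsp S ψ m j) ≤ w := by
      refine le_trans (Submodule.finrank_mono hW) (le_trans (Submodule.finrank_map_le _ _) ?_)
      have := h j hj
      rwa [Matrix.rank_eq_finrank_span_cols] at this
    obtain ⟨f, hf⟩ : ∃ f : Wsp S ψ m j →ₗ[F] (Fin w → F), Function.Injective f := by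
      apply finrank_le_iff_exists_linearMap.1
      simpa using hfin
    obtain ⟨g, hg⟩ := LinearMap.exists_leftInverse_of_injective f (LinearMap.ker_eq_bot.2 hf)
    obtain ⟨π, hπ⟩ := LinearMap.exists_leftInverse_of_injective (Wsp S ψ m j).subtype
      (Submodule.ker_subtype _)
    refine ⟨f ∘ₗ π, (Wsp S ψ m j).subtype ∘ₗ g, fun _ => ⟨?_, ?_⟩⟩
    · intro φ hφ
      have h1 := LinearMap.congr_fun hπ ⟨φ, hφ⟩
      have h2 := LinearMap.congr_fun hg ⟨φ, hφ⟩
      simp only [LinearMap.comp_apply, Submodule.subtype_apply, LinearMap.id_apply] at h1 h2 ⊢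
      rw [h1, h2]
    · intro v
      exact (g v).2
  choose E R hER using key
  exact ⟨E, R, ⟨fun j hj => (hER j hj).1, fun j hj => (hER j hj).2⟩⟩

/-- The letters of the word attached to a realisation. -/
noncomputable def letter {w : ℕ} (S : Finset G) (m : ℕ)
    (E : ℕ → ((G → F) →ₗ[F] (Fin w → F))) (R : ℕ → ((Fin w → F) →ₗ[F] (G → F)))
    (j : ℕ) (s : S) : Matrix (Fin w) (Fin w) F :=
  LinearMap.toMatrix' (E (j + 1) ∘ₗ Top S (m - (j + 1)) s ∘ₗ R j)

/-- The vector-valued linear map on the group algebra. -/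
noncomputable def Lam {w : ℕ} (K : Type*) [Field K] [Algebra F K] (S : Finset G) (ψ : G → F) (m : ℕ)
    (E : ℕ → ((G → F) →ₗ[F] (Fin w → F))) (j : ℕ) : MonoidAlgebra K G →ₗ[K] (Fin w → K) :=
  (MonoidAlgebra.basis G K).constr K (fun h => fun t => algebraMap F K (E j (cvec S ψ (m - j) h) t))

theorem Lam_of {w : ℕ} (S : Finset G) (ψ : G → F) (m : ℕ)
    (E : ℕ → ((G → F) →ₗ[F] (Fin w → F))) (j : ℕ) (h : G) :
    Lam K S ψ m E j (MonoidAlgebra.of K G h)
      = fun t => algebraMap F K (E j (cvec S ψ (m - j) h) t) := by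
  have h1 : MonoidAlgebra.of K G h = MonoidAlgebra.basis G K h := by
    rw [MonoidAlgebra.basis_apply]
    rfl
  rw [h1]
  unfold Lam
  rw [Module.Basis.constr_basis]

theorem Lam_zero {w : ℕ} (S : Finset G) (ψ : G → F) (m : ℕ)
    (hψ : ∀ i < m, ∀ g ∈ S ^ i, ψ g = 0)
    (E : ℕ → ((G → F) →ₗ[F] (Fin w → F))) (i j : ℕ) (hij : i < j) (hj : j ≤ m) (h : G)
    (hh : h ∈ S ^ i) :
    Lam K S ψ m E j (MonoidAlgebra.of K G h) = 0 := by
  rw [Lam_of]
  have h0 : cvec S ψ (m - j) h = 0 := by
    funext g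
    simp only [cvec, Pi.zero_apply]
    split_ifs with hg
    · apply hψ (m - j + i) (by omega)
      rw [pow_add]
      exact Finset.mul_mem_mul hg hh
    · rfl
  rw [h0, map_zero]
  funext t
  simp

theorem map_mulVec_cast {w : ℕ} (A : Matrix (Fin w) (Fin w) F) (v : Fin w → F) :
    (A.map (algebraMap F K)) *ᵥ (fun t => algebraMap F K (v t))
      = fun t => algebraMap F K ((A *ᵥ v) t) := by
  funext t
  simp [Matrix.mulVec, dotProduct]

/-- One step, at the top level. -/
theorem step_top {w : ℕ} (S : Finset G) (ψ : G → F) (m : ℕ)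
    (E : ℕ → ((G → F) →ₗ[F] (Fin w → F))) (R : ℕ → ((Fin w → F) →ₗ[F] (G → F)))
    (hr : Rlz S ψ m E R) (j : ℕ) (hj : j < m) (x : S → K) (h : G) (hh : h ∈ S ^ j) :
    mat (letter S m E R j) x *ᵥ Lam K S ψ m E j (MonoidAlgebra.of K G h)
      = ∑ s : S, x s • Lam K S ψ m E (j + 1) (MonoidAlgebra.of K G (s * h)) := by
  unfold mat
  rw [Matrix.sum_mulVec]
  apply Finset.sum_congr rfl
  intro s _
  rw [Matrix.smul_mulVec, Lam_of, Lam_of, map_mulVec_cast]
  congr 1
  funext t
  congr 1
  unfold letter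
  rw [LinearMap.toMatrix'_mulVec]
  simp only [LinearMap.comp_apply]
  have hmem : cvec S ψ (m - j) h ∈ Wsp S ψ m j := Submodule.subset_span ⟨⟨h, hh⟩, rfl⟩
  rw [hr.hRE j hj.le _ hmem]
  have e : m - j = (m - (j + 1)) + 1 := by omega
  rw [e, Top_cvec _ _ _ _ _ s.2]

/-- The filtration of the group algebra by word length. -/
noncomputable def Fil (K : Type*) [Field K] (S : Finset G) (j : ℕ) : Submodule K (MonoidAlgebra K G) :=
  Submodule.span K {y | ∃ i ≤ j, ∃ h ∈ S ^ i, y = MonoidAlgebra.of K G h}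

theorem vel_mul_mem (S : Finset G) (j : ℕ) (x : S → K) (y : MonoidAlgebra K G)
    (hy : y ∈ Fil K S j) : vel S x * y ∈ Fil K S (j + 1) := by
  unfold Fil at hy
  induction hy using Submodule.span_induction with
  | mem y hy =>
    obtain ⟨i, hi, h, hh, rfl⟩ := hy
    unfold vel
    rw [Finset.sum_mul]
    apply Submodule.sum_mem
    intro s _
    rw [smul_mul_assoc]
    apply Submodule.smul_mem
    rw [sub_mul, one_mul, ← map_mul]
    apply Submodule.sub_mem
    · apply Submodule.subset_span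
      refine ⟨i + 1, by omega, s * h, ?_, rfl⟩
      rw [pow_succ']
      exact Finset.mul_mem_mul s.2 hh
    · apply Submodule.subset_span
      exact ⟨i, by omega, h, hh, rfl⟩
  | zero => rw [mul_zero]; exact Submodule.zero_mem _
  | add a b _ _ ha hb => rw [mul_add]; exact Submodule.add_mem _ ha hb
  | smul c a _ ha => rw [mul_smul_comm]; exact Submodule.smul_mem _ _ ha

theorem step_vel {w : ℕ} (S : Finset G) (ψ : G → F) (m : ℕ)
    (hψ : ∀ i < m, ∀ g ∈ S ^ i, ψ g = 0)
    (E : ℕ → ((G → F) →ₗ[F] (Fin w → F))) (R : ℕ → ((Fin w → F) →ₗ[F] (G → F)))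
    (hr : Rlz S ψ m E R) (j : ℕ) (hj : j < m) (x : S → K) (y : MonoidAlgebra K G)
    (hy : y ∈ Fil K S j) :
    mat (letter S m E R j) x *ᵥ Lam K S ψ m E j y = Lam K S ψ m E (j + 1) (vel S x * y) := by
  unfold Fil at hy
  induction hy using Submodule.span_induction with
  | mem y hy =>
    obtain ⟨i, hi, h, hh, rfl⟩ := hy
    have h1 : Lam K S ψ m E (j + 1) (vel S x * MonoidAlgebra.of K G h)
        = ∑ s : S, x s • Lam K S ψ m E (j + 1) (MonoidAlgebra.of K G (s * h)) := by
      unfold vel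
      rw [Finset.sum_mul, map_sum]
      apply Finset.sum_congr rfl
      intro s _
      rw [smul_mul_assoc, map_smul, sub_mul, one_mul, ← map_mul, map_sub,
        Lam_zero S ψ m hψ E i (j + 1) (by omega) hj h hh, sub_zero]
    rw [h1]
    rcases Nat.lt_or_ge i j with hlt | hge
    · rw [Lam_zero S ψ m hψ E i j hlt hj.le h hh, Matrix.mulVec_zero]
      symm
      apply Finset.sum_eq_zero
      intro s _
      rw [Lam_zero S ψ m hψ E (i + 1) (j + 1) (by omega) hj (s * h)
        (by rw [pow_succ']; exact Finset.mul_mem_mul s.2 hh), smul_zero]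
    · have hij : i = j := le_antisymm hi hge
      subst hij
      exact step_top S ψ m E R hr i hj x h hh
  | zero => rw [mul_zero, map_zero, map_zero, Matrix.mulVec_zero]
  | add a b _ _ ha hb => rw [mul_add, map_add, map_add, Matrix.mulVec_add, ha, hb]
  | smul c a _ ha => rw [mul_smul_comm, map_smul, map_smul, Matrix.mulVec_smul, ha]

theorem word_vel {w : ℕ} (S : Finset G) (ψ : G → F) (m : ℕ)
    (hψ : ∀ i < m, ∀ g ∈ S ^ i, ψ g = 0)
    (E : ℕ → ((G → F) →ₗ[F] (Fin w → F))) (R : ℕ → ((Fin w → F) →ₗ[F] (G → F)))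
    (hr : Rlz S ψ m E R) (i : ℕ) (x : ℕ → S → K) (y : MonoidAlgebra K G)
    (hy : y ∈ Fil K S i) (l : ℕ) (hl : i + l ≤ m) :
    Vp S x l * y ∈ Fil K S (i + l) ∧
    Pr (fun j => letter S m E R (i + j)) x l *ᵥ Lam K S ψ m E i y
      = Lam K S ψ m E (i + l) (Vp S x l * y) := by
  induction l with
  | zero =>
    simp only [Vp, one_mul, Pr, Matrix.one_mulVec, Nat.add_zero]
    exact ⟨hy, trivial⟩
  | succ n ih =>
    obtain ⟨ih1, ih2⟩ := ih (by omega)
    have e1 : Vp S x (n + 1) * y = vel S (x n) * (Vp S x n * y) := by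
      show vel S (x n) * Vp S x n * y = _
      rw [mul_assoc]
    rw [e1]
    refine ⟨vel_mul_mem S (i + n) (x n) _ ih1, ?_⟩
    rw [Pr_succ, ← Matrix.mulVec_mulVec, ih2,
      step_vel S ψ m hψ E R hr (i + n) (by omega) (x n) _ ih1]
    rfl

/-- Existence of weights detecting a given group element at the top level. -/
theorem exists_path {w : ℕ} (S : Finset G) (ψ : G → F) (m : ℕ)
    (E : ℕ → ((G → F) →ₗ[F] (Fin w → F))) (R : ℕ → ((Fin w → F) →ₗ[F] (G → F)))
    (hr : Rlz S ψ m E R) (n : ℕ) (hn : n ≤ m) :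
    ∀ g ∈ S ^ n, ∃ x : ℕ → S → K,
      Pr (letter S m E R) x n *ᵥ Lam K S ψ m E 0 (MonoidAlgebra.of K G 1)
        = Lam K S ψ m E n (MonoidAlgebra.of K G g) := by
  induction n with
  | zero =>
    intro g hg
    have : g = 1 := by simpa using hg
    subst this
    exact ⟨0, by simp [Pr]⟩
  | succ n ih =>
    intro g hg
    rw [pow_succ', Finset.mem_mul] at hg
    obtain ⟨s, hs, h, hh, rfl⟩ := hg
    obtain ⟨x, hx⟩ := ih (by omega) h hh
    refine ⟨Function.update x n (Pi.single ⟨s, hs⟩ 1), ?_⟩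
    rw [Pr_succ, ← Matrix.mulVec_mulVec]
    have e1 : Pr (letter S m E R) (Function.update x n (Pi.single ⟨s, hs⟩ 1)) n
        = Pr (letter S m E R) x n := by
      apply Pr_congr (fun _ _ => rfl)
      intro j hj
      rw [Function.update_of_ne (by omega)]
    rw [e1, hx, Function.update_self, step_top S ψ m E R hr n (by omega) _ h hh]
    rw [Finset.sum_eq_single (⟨s, hs⟩ : S)]
    · simp
    · intro b _ hb
      rw [Pi.single_eq_of_ne hb, zero_smul]
    · intro h
      exact absurd (Finset.mem_univ _) h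

/-- The factors of the words attached to functionals with small Hankel ranks. -/
def Fac (F : Type*) [Field F] (S : Finset G) (w : ℕ) (a : ℕ → S → Matrix (Fin w) (Fin w) F)
    (l : ℕ) : Prop :=
  ∃ (m : ℕ) (ψ : G → F) (E : ℕ → ((G → F) →ₗ[F] (Fin w → F)))
    (R : ℕ → ((Fin w → F) →ₗ[F] (G → F))),
    Rlz S ψ m E R ∧ (∀ i < m, ∀ g ∈ S ^ i, ψ g = 0) ∧
    ∃ i, i + l ≤ m ∧ ∀ j < l, a j = letter S m E R (i + j)

theorem Fac_sub {S : Finset G} {w : ℕ} (a : ℕ → S → Matrix (Fin w) (Fin w) F)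
    (i l n : ℕ) (h : Fac F S w a n) (hil : i + l ≤ n) : Fac F S w (fun j => a (i + j)) l := by
  obtain ⟨m, ψ, E, R, hr, hψ, i₀, hi₀, ha⟩ := h
  refine ⟨m, ψ, E, R, hr, hψ, i₀ + i, by omega, ?_⟩
  intro j hj
  show a (i + j) = _
  rw [ha (i + j) (by omega), Nat.add_assoc]

/-- If the periodic product vanishes in the group algebra then so does the matrix product. -/
theorem Fac_zero {S : Finset G} {w : ℕ} (a : ℕ → S → Matrix (Fin w) (Fin w) F) (l : ℕ)
    (h : Fac F S w a (l + 1)) (x : ℕ → S → K) (hx : Vp S x (l + 1) = 0) :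
    Pr a x (l + 1) = 0 := by
  classical
  obtain ⟨m, ψ, E, R, hr, hψ, i, hi, ha⟩ := h
  rw [Pr_congr (a' := fun j => letter S m E R (i + j)) (x' := x) ha (fun _ _ => rfl)]
  have h1 : ∀ v ∈ Wsp S ψ m i, Pr (fun j => letter S m E R (i + j)) x (l + 1) *ᵥ
      (fun t => algebraMap F K (E i v t)) = 0 := by
    intro v hv
    unfold Wsp at hv
    induction hv using Submodule.span_induction with
    | mem v hv =>
      obtain ⟨h, rfl⟩ := hv
      have h2 := (word_vel S ψ m hψ E R hr i x (MonoidAlgebra.of K G h)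
        (Submodule.subset_span ⟨i, le_rfl, h, h.2, rfl⟩) (l + 1) hi).2
      rw [hx, zero_mul, map_zero, Lam_of] at h2
      exact h2
    | zero =>
      rw [map_zero]
      have : (fun t : Fin w => algebraMap F K ((0 : Fin w → F) t)) = 0 := by
        funext t; simp
      rw [this, Matrix.mulVec_zero]
    | add u v _ _ hu hv =>
      have : (fun t : Fin w => algebraMap F K (E i (u + v) t))
          = (fun t => algebraMap F K (E i u t)) + (fun t => algebraMap F K (E i v t)) := by
        funext t; simp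
      rw [this, Matrix.mulVec_add, hu, hv, add_zero]
    | smul c u _ hu =>
      have : (fun t : Fin w => algebraMap F K (E i (c • u) t))
          = (algebraMap F K c) • (fun t => algebraMap F K (E i u t)) := by
        funext t; simp
      rw [this, Matrix.mulVec_smul, hu, smul_zero]
  -- reduce to vectors of the form `E (R v)`
  have h2 : ∀ v : Fin w → F, Pr (fun j => letter S m E R (i + j)) x (l + 1) *ᵥ
      (fun t => algebraMap F K (v t)) = 0 := by
    intro v
    have h3 := h1 (R i v) (hr.hR i (by omega) v)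
    have h4 : mat (letter S m E R (i + 0)) (x 0) *ᵥ (fun t => algebraMap F K (v t))
        = mat (letter S m E R (i + 0)) (x 0) *ᵥ (fun t => algebraMap F K (E i (R i v) t)) := by
      unfold mat
      rw [Matrix.sum_mulVec, Matrix.sum_mulVec]
      apply Finset.sum_congr rfl
      intro s _
      rw [Matrix.smul_mulVec, Matrix.smul_mulVec, map_mulVec_cast, map_mulVec_cast]
      congr 1
      funext t
      congr 1
      unfold letter
      rw [LinearMap.toMatrix'_mulVec, LinearMap.toMatrix'_mulVec]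
      simp only [LinearMap.comp_apply, Nat.add_zero]
      rw [hr.hRE i (by omega) _ (hr.hR i (by omega) v)]
    have h5 : Pr (fun j => letter S m E R (i + j)) x (l + 1)
        = Pr (fun j => letter S m E R (i + (1 + j))) (fun j => x (1 + j)) l *
          mat (letter S m E R (i + 0)) (x 0) := by
      rw [Nat.add_comm l 1, Pr_add]
      congr 1
      simp [Pr]
    rw [h5, ← Matrix.mulVec_mulVec] at h3 ⊢
    rw [h4]
    exact h3
  ext p q
  have h3 := congrFun (h2 (Pi.single q 1)) p
  have h4 : (fun t : Fin w => algebraMap F K ((Pi.single q 1 : Fin w → F) t))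
      = Pi.single q 1 := by
    funext t
    by_cases htq : t = q
    · subst htq; simp
    · simp [Pi.single_eq_of_ne htq]
  rw [h4, Matrix.mulVec_single_one] at h3
  simpa using h3

/-- **Hankel ranks.** -/
theorem hankel [Finite F] [Infinite K]
    (hnil : ∀ x ∈ Ideal.span {y : MonoidAlgebra K G | ∃ g : G, y = MonoidAlgebra.of K G g - 1},
      IsNilpotent x) (S : Finset G) (w : ℕ) :
    ∃ m₀ : ℕ, ∀ m, m₀ ≤ m → ∀ ψ : G → F, (∀ i < m, ∀ g ∈ S ^ i, ψ g = 0) →
      (∃ g ∈ S ^ m, ψ g ≠ 0) → ∃ j ≤ m, w <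
        (Matrix.of fun (g : (S ^ (m - j) : Finset G)) (h : (S ^ j : Finset G)) =>
          ψ (g * h)).rank := by
  by_contra hcon
  push Not at hcon
  have hne : ∀ l, ∃ a, Fac F S w a l ∧ ∃ x : ℕ → S → K, Pr a x l ≠ 0 := by
    intro l
    obtain ⟨m, hm, ψ, hψ, ⟨g, hg, hgψ⟩, hrk⟩ := hcon l
    obtain ⟨E, R, hr⟩ := exists_Rlz S ψ m hrk
    refine ⟨letter S m E R, ⟨m, ψ, E, R, hr, hψ, 0, by omega, fun j _ => by rw [Nat.zero_add]⟩, ?_⟩
    obtain ⟨x, hx⟩ := exists_path (K := K) S ψ m E R hr m le_rfl g hg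
    refine ⟨x, ?_⟩
    intro h0
    obtain ⟨d, rfl⟩ := Nat.exists_eq_add_of_le hm
    rw [Pr_add, h0, Matrix.mul_zero, Matrix.zero_mulVec, Lam_of] at hx
    have h1 : E (l + d) (cvec S ψ (l + d - (l + d)) g) = 0 := by
      funext t
      have := congrFun hx t
      simp only [Pi.zero_apply] at this ⊢
      have h2 : algebraMap F K (E (l + d) (cvec S ψ (l + d - (l + d)) g) t) = 0 := this.symm
      exact (map_eq_zero _).1 h2
    have hmem : cvec S ψ (l + d - (l + d)) g ∈ Wsp S ψ (l + d) (l + d) :=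
      Submodule.subset_span ⟨⟨g, hg⟩, rfl⟩
    have h2 := hr.hRE (l + d) le_rfl _ hmem
    rw [h1, map_zero] at h2
    have h3 := congrFun h2 1
    simp [cvec] at h3
    exact hgψ h3.symm
  obtain ⟨M, ξ, hM, hper, hξ⟩ := exists_periodic (K := K) (Fac F S w)
    (fun a i l n h hil => Fac_sub a i l n h hil) hne
  have hmem : Vp S ξ (2 * M) ∈
      Ideal.span {y : MonoidAlgebra K G | ∃ g : G, y = MonoidAlgebra.of K G g - 1} := by
    obtain ⟨n, hn⟩ : ∃ n, 2 * M = n + 1 := ⟨2 * M - 1, by omega⟩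
    rw [hn]
    exact Vp_mem S ξ n
  obtain ⟨k, hk⟩ := hnil _ hmem
  obtain ⟨a, ha, hne2⟩ := hξ k
  apply hne2
  obtain ⟨n, hn⟩ : ∃ n, 2 * M * (k + 1) = n + 1 :=
    ⟨2 * M * (k + 1) - 1, by
      have : 0 < 2 * M * (k + 1) := by positivity
      omega⟩
  rw [hn] at ha ⊢
  apply Fac_zero a n ha ξ
  rw [← hn, Vp_periodic S ξ (2 * M) hper, pow_succ, hk, zero_mul]

end Pool.Agent.Hhelper95.NilAug
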