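import Mathlib

/-!
# Products of matrix pencils along words over a finite alphabet

Combinatorial core: a language of words (closed under taking factors, containing arbitrarily long
words that carry a nonzero product) over a finite alphabet of matrix pencils over a finite field
admits, over an infinite field, a periodic choice of weights for which arbitrarily long words of
the language have nonzero product.
-/

open Matrix

namespace Pool.Agent.Hhelper95.NilAug

variable {F : Type*} [Field F] {σ : Type*} [Fintype σ] {w : ℕ}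

/-- The pencil `∑ₛ xₛ aₛ`. -/
noncomputable def mat {R : Type*} [CommRing R] [Algebra F R]
    (a : σ → Matrix (Fin w) (Fin w) F) (x : σ → R) : Matrix (Fin w) (Fin w) R :=
  ∑ s, x s • (a s).map (algebraMap F R)

/-- The product of the first `l` pencils along a word. -/
noncomputable def Pr {R : Type*} [CommRing R] [Algebra F R]
    (a : ℕ → σ → Matrix (Fin w) (Fin w) F) (x : ℕ → σ → R) : ℕ → Matrix (Fin w) (Fin w) R
  | 0 => 1
  | (l + 1) => mat (a l) (x l) * Pr a x l

section basic

variable {R : Type*} [CommRing R] [Algebra F R]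

theorem Pr_succ (a : ℕ → σ → Matrix (Fin w) (Fin w) F) (x : ℕ → σ → R) (l : ℕ) :
    Pr a x (l + 1) = mat (a l) (x l) * Pr a x l := rfl

theorem Pr_congr {a a' : ℕ → σ → Matrix (Fin w) (Fin w) F} {x x' : ℕ → σ → R} {l : ℕ}
    (ha : ∀ j < l, a j = a' j) (hx : ∀ j < l, x j = x' j) : Pr a x l = Pr a' x' l := by
  induction l with
  | zero => rfl
  | succ n ih =>
    rw [Pr_succ, Pr_succ, ih (fun j hj => ha j (by omega)) (fun j hj => hx j (by omega)),
      ha n (by omega), hx n (by omega)]

theorem Pr_add (a : ℕ → σ → Matrix (Fin w) (Fin w) F) (x : ℕ → σ → R) (i l : ℕ) :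
    Pr a x (i + l) = Pr (fun j => a (i + j)) (fun j => x (i + j)) l * Pr a x i := by
  induction l with
  | zero => simp [Pr]
  | succ n ih => rw [← Nat.add_assoc, Pr_succ, ih, Pr_succ, Matrix.mul_assoc]

theorem mat_map {R' : Type*} [CommRing R'] [Algebra F R'] (f : R →ₐ[F] R')
    (a : σ → Matrix (Fin w) (Fin w) F) (x : σ → R) :
    (mat a x).map f = mat a (fun s => f (x s)) := by
  ext i j
  simp [mat, Matrix.sum_apply]

theorem Pr_map {R' : Type*} [CommRing R'] [Algebra F R'] (f : R →ₐ[F] R')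
    (a : ℕ → σ → Matrix (Fin w) (Fin w) F) (x : ℕ → σ → R) (l : ℕ) :
    (Pr a x l).map f = Pr a (fun j s => f (x j s)) l := by
  induction l with
  | zero => simp [Pr]
  | succ n ih =>
    rw [Pr_succ, Pr_succ, ← ih, ← mat_map]
    exact Matrix.map_mul

end basic

section rank

variable {K : Type*} [Field K] [Algebra F K]

theorem rank_of_det {w r : ℕ} {A : Matrix (Fin w) (Fin w) K} {B : Matrix (Fin r) (Fin w) K}
    {C : Matrix (Fin w) (Fin r) K} (h : (B * A * C).det ≠ 0) : r ≤ A.rank := by
  have h1 : (B * A * C).rank = r := by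
    rw [Matrix.rank_of_isUnit _ ((Matrix.isUnit_iff_isUnit_det _).2 (isUnit_iff_ne_zero.2 h))]
    simp
  calc r = (B * A * C).rank := h1.symm
    _ ≤ (B * A).rank := Matrix.rank_mul_le_left _ _
    _ ≤ A.rank := Matrix.rank_mul_le_right _ _

theorem eq_zero_of_rank_eq_zero {w : ℕ} {A : Matrix (Fin w) (Fin w) K} (h : A.rank = 0) :
    A = 0 := by
  unfold Matrix.rank at h
  have h1 : LinearMap.range A.mulVecLin = ⊥ := Submodule.finrank_eq_zero.1 h
  have h2 : A.mulVecLin = 0 := LinearMap.range_eq_bot.1 h1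
  ext i j
  have h3 := LinearMap.congr_fun h2 (Pi.single j 1)
  have h4 := congrFun h3 i
  simpa using h4

theorem exists_det {w r : ℕ} {A : Matrix (Fin w) (Fin w) K} (h : r ≤ A.rank) :
    ∃ (B : Matrix (Fin r) (Fin w) K) (C : Matrix (Fin w) (Fin r) K), (B * A * C).det ≠ 0 := by
  classical
  obtain ⟨f, hf⟩ := exists_linearIndependent_of_le_finrank (R := K)
    (M := LinearMap.range A.mulVecLin) (n := r) h
  have hf' : LinearIndependent K (fun i => (f i : Fin w → K)) :=
    hf.map' (Submodule.subtype _) (Submodule.ker_subtype _)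
  have hc : ∀ i, ∃ c : Fin w → K, A *ᵥ c = (f i : Fin w → K) := by
    intro i
    obtain ⟨c, hc⟩ := (f i).2
    exact ⟨c, by simpa using hc⟩
  choose c hc using hc
  obtain ⟨g, hg⟩ := LinearMap.exists_leftInverse_of_injective
    (Fintype.linearCombination K (fun i => (f i : Fin w → K)))
    (LinearMap.ker_eq_bot.2 hf'.fintypeLinearCombination_injective)
  refine ⟨LinearMap.toMatrix' g, Matrix.of (fun a i => c i a), ?_⟩
  have : LinearMap.toMatrix' g * A * Matrix.of (fun a i => c i a) = 1 := by
    ext i j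
    rw [Matrix.mul_assoc]
    have h1 : (A * Matrix.of (fun a i => c i a)).col j = (f j : Fin w → K) := by
      rw [← hc j]
      rfl
    have h2 : (LinearMap.toMatrix' g * (A * Matrix.of (fun a i => c i a))) i j
        = (LinearMap.toMatrix' g *ᵥ ((A * Matrix.of (fun a i => c i a)).col j)) i := rfl
    rw [h2, h1, LinearMap.toMatrix'_mulVec]
    have h3 := LinearMap.congr_fun hg (Pi.single j 1)
    simp only [LinearMap.comp_apply, LinearMap.id_apply,
      Fintype.linearCombination_apply_single, one_smul] at h3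
    rw [h3]
    simp [Matrix.one_apply, Pi.single_apply]
  rw [this]
  simp

/-- Chain lemma: if every factor has rank at most `r` and consecutive pairs have rank at least
`r`, then the whole product has rank at least `r`. -/
theorem chain_rank {w r : ℕ} (T : ℕ → Matrix (Fin w) (Fin w) K) (P : ℕ → Matrix (Fin w) (Fin w) K)
    (hP0 : P 0 = 1) (hP : ∀ i, P (i + 1) = T i * P i) (N : ℕ)
    (h1 : ∀ i < N, (T i).rank ≤ r) (h2 : ∀ i, i + 1 < N → r ≤ (T (i + 1) * T i).rank) :
    ∀ n < N, LinearMap.range (P (n + 1)).mulVecLin = LinearMap.range (T n).mulVecLin := by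
  intro n
  induction n with
  | zero =>
    intro _
    rw [hP, hP0, Matrix.mul_one]
  | succ n ih =>
    intro hn
    have ih' := ih (by omega)
    have e1 : LinearMap.range (P (n + 1 + 1)).mulVecLin
        = LinearMap.range (T (n + 1) * T n).mulVecLin := by
      rw [hP (n + 1), Matrix.mulVecLin_mul, Matrix.mulVecLin_mul, LinearMap.range_comp,
        LinearMap.range_comp, ih']
    rw [e1]
    have hle : LinearMap.range (T (n + 1) * T n).mulVecLin
        ≤ LinearMap.range (T (n + 1)).mulVecLin := by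
      rw [Matrix.mulVecLin_mul]
      exact LinearMap.range_comp_le_range _ _
    apply Submodule.eq_of_le_of_finrank_le hle
    have h3 := h1 (n + 1) hn
    have h4 := h2 n hn
    unfold Matrix.rank at h3 h4
    exact h3.trans h4

/-- Nonvanishing polynomial controlling the rank of a window. -/
theorem exists_poly {M r : ℕ} (hM : 1 ≤ M) (a : ℕ → σ → Matrix (Fin w) (Fin w) F)
    (x : ℕ → σ → K) (hx : r ≤ (Pr a x (2 * M)).rank) (b : Bool) :
    ∃ D : MvPolynomial (ℕ × σ) K, D ≠ 0 ∧ ∀ p : ℕ × σ → K, MvPolynomial.eval p D ≠ 0 →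
      r ≤ (Pr a (fun j s => p (((if b then M else 0) + j) % (2 * M), s)) (2 * M)).rank := by
  classical
  obtain ⟨B, C, hBC⟩ := exists_det hx
  let c : K → MvPolynomial (ℕ × σ) K := fun t => MvPolynomial.C t
  have key : ∀ p : ℕ × σ → K, MvPolynomial.eval p
      (((B.map c : Matrix (Fin r) (Fin w) (MvPolynomial (ℕ × σ) K)) *
        (Pr a (fun j s => (MvPolynomial.X
        (((if b then M else 0) + j) % (2 * M), s) : MvPolynomial (ℕ × σ) K)) (2 * M) :
          Matrix (Fin w) (Fin w) (MvPolynomial (ℕ × σ) K)) *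
        (C.map c : Matrix (Fin w) (Fin r) (MvPolynomial (ℕ × σ) K)) :
          Matrix (Fin r) (Fin r) (MvPolynomial (ℕ × σ) K)).det)
      = (B * Pr a (fun j s => p (((if b then M else 0) + j) % (2 * M), s)) (2 * M) * C).det := by
    intro p
    have h1 := Pr_map (F := F) ((MvPolynomial.aeval p : MvPolynomial (ℕ × σ) K →ₐ[K] K).restrictScalars F)
      a (fun j s => (MvPolynomial.X
        (((if b then M else 0) + j) % (2 * M), s) : MvPolynomial (ℕ × σ) K)) (2 * M)
    simp only [AlgHom.coe_restrictScalars', MvPolynomial.aeval_X] at h1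
    rw [← h1, RingHom.map_det]
    congr 1
    ext i j
    simp [Matrix.mul_apply, MvPolynomial.aeval_eq_eval, c]
  refine ⟨((B.map c : Matrix (Fin r) (Fin w) (MvPolynomial (ℕ × σ) K)) *
        (Pr a (fun j s => (MvPolynomial.X
        (((if b then M else 0) + j) % (2 * M), s) : MvPolynomial (ℕ × σ) K)) (2 * M) :
          Matrix (Fin w) (Fin w) (MvPolynomial (ℕ × σ) K)) *
        (C.map c : Matrix (Fin w) (Fin r) (MvPolynomial (ℕ × σ) K)) :
          Matrix (Fin r) (Fin r) (MvPolynomial (ℕ × σ) K)).det, ?_, fun p hp => ?_⟩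
  rotate_left
  · rw [key p] at hp
    exact rank_of_det hp
  · intro h0
    apply hBC
    have h2 := key (fun q => x (if b then (if q.1 < M then q.1 + M else q.1 - M) else q.1) q.2)
    rw [h0, map_zero] at h2
    rw [h2]
    congr 3
    apply Pr_congr (fun _ _ => rfl)
    intro j hj
    funext s
    congr 1
    cases b
    · simp only [Bool.false_eq_true, if_false, Nat.zero_add]
      exact (Nat.mod_eq_of_lt hj).symm
    · simp only [if_true]
      by_cases hjM : j < M
      · rw [Nat.mod_eq_of_lt (by omega)]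
        split_ifs <;> omega
      · have : (M + j) % (2 * M) = j - M := by
          rw [show M + j = (j - M) + 2 * M by omega, Nat.add_mod_right,
            Nat.mod_eq_of_lt (by omega)]
        rw [this]
        split_ifs <;> omega

end rank

section main

variable {K : Type*} [Field K] [Algebra F K]

/-- Extend a finite word by zero. -/
def extw (n : ℕ) (u : Fin n → σ → Matrix (Fin w) (Fin w) F) :
    ℕ → σ → Matrix (Fin w) (Fin w) F :=
  fun j => if h : j < n then u ⟨j, h⟩ else 0

omit [Fintype σ] in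
theorem extw_of (n : ℕ) (a : ℕ → σ → Matrix (Fin w) (Fin w) F) (j : ℕ) (hj : j < n) :
    extw n (fun i => a i) j = a j := by
  simp [extw, hj]

/-- For an infinite field there are weights that keep the rank of all windows. -/
theorem window_family [Finite F] [Infinite K] (w : ℕ) {M : ℕ} (r : ℕ) (hM : 1 ≤ M) :
    ∃ p : ℕ × σ → K, ∀ (a : ℕ → σ → Matrix (Fin w) (Fin w) F) (x : ℕ → σ → K),
      r ≤ (Pr a x (2 * M)).rank → ∀ b : Bool,
      r ≤ (Pr a (fun j s => p (((if b then M else 0) + j) % (2 * M), s)) (2 * M)).rank := by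
  classical
  let Good : Type _ := {u : Fin (2 * M) → σ → Matrix (Fin w) (Fin w) F //
    ∃ x : ℕ → σ → K, r ≤ (Pr (extw (2 * M) u) x (2 * M)).rank}
  have : Finite Good := by
    have : Finite (Matrix (Fin w) (Fin w) F) := inferInstanceAs (Finite (Fin w → Fin w → F))
    exact Subtype.finite
  have : Fintype Good := Fintype.ofFinite _
  have hD : ∀ q : Good × Bool, ∃ D : MvPolynomial (ℕ × σ) K, D ≠ 0 ∧
      ∀ p : ℕ × σ → K, MvPolynomial.eval p D ≠ 0 →
      r ≤ (Pr (extw (2 * M) q.1.1) (fun j s => p (((if q.2 then M else 0) + j) % (2 * M), s))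
        (2 * M)).rank := by
    intro q
    obtain ⟨x, hx⟩ := q.1.2
    exact exists_poly hM _ x hx q.2
  choose D hD0 hDp using hD
  have hprod : (∏ q, D q) ≠ 0 := Finset.prod_ne_zero_iff.2 (fun q _ => hD0 q)
  obtain ⟨p, hp⟩ : ∃ p : ℕ × σ → K, MvPolynomial.eval p (∏ q, D q) ≠ 0 := by
    by_contra hcon
    push Not at hcon
    exact hprod (MvPolynomial.funext (fun x => by rw [hcon x, map_zero]))
  have hpq : ∀ q, MvPolynomial.eval p (D q) ≠ 0 := by
    rw [map_prod] at hp
    exact fun q => Finset.prod_ne_zero_iff.1 hp q (Finset.mem_univ q)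
  refine ⟨p, fun a x hx b => ?_⟩
  have e3 : ∀ y : ℕ → σ → K, Pr (extw (2 * M) (fun i => a i)) y (2 * M) = Pr a y (2 * M) :=
    fun y => Pr_congr (fun j hj => extw_of _ a j hj) (fun _ _ => rfl)
  have hgood : ∃ x : ℕ → σ → K, r ≤ (Pr (extw (2 * M) (fun i => a i)) x (2 * M)).rank :=
    ⟨x, by rw [e3]; exact hx⟩
  have h4 := hDp (⟨(fun i => a i), hgood⟩, b) p (hpq _)
  simp only [e3] at h4
  exact h4

/-- The rank of a long product is at most the rank of any of its windows. -/
theorem window_rank {r : ℕ} (a : ℕ → σ → Matrix (Fin w) (Fin w) F) (x : ℕ → σ → K) (i l n : ℕ)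
    (h : i + l ≤ n) (hr : r ≤ (Pr a x n).rank) :
    r ≤ (Pr (fun j => a (i + j)) (fun j => x (i + j)) l).rank := by
  obtain ⟨d, rfl⟩ := Nat.exists_eq_add_of_le h
  rw [Pr_add a x (i + l) d, Pr_add a x i l] at hr
  exact (hr.trans (Matrix.rank_mul_le_right _ _)).trans (Matrix.rank_mul_le_left _ _)

theorem exists_periodic [Finite F] [Infinite K]
    (Fac : (ℕ → σ → Matrix (Fin w) (Fin w) F) → ℕ → Prop)
    (hfac : ∀ a i l n, Fac a n → i + l ≤ n → Fac (fun j => a (i + j)) l)
    (hne : ∀ l, ∃ a, Fac a l ∧ ∃ x : ℕ → σ → K, Pr a x l ≠ 0) :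
    ∃ M : ℕ, ∃ ξ : ℕ → σ → K, 1 ≤ M ∧ (∀ j, ξ (j + 2 * M) = ξ j) ∧
      ∀ k, ∃ a, Fac a (2 * M * (k + 1)) ∧ Pr a ξ (2 * M * (k + 1)) ≠ 0 := by
  classical
  set P : ℕ → Prop := fun r => ∀ l, ∃ a, Fac a l ∧ ∃ x : ℕ → σ → K, r ≤ (Pr a x l).rank with hPdef
  have hP1 : P 1 := by
    intro l
    obtain ⟨a, ha, x, hx⟩ := hne l
    refine ⟨a, ha, x, ?_⟩
    by_contra hcon
    apply hx
    have h0 : (Pr a x l).rank = 0 := by omega
    exact eq_zero_of_rank_eq_zero h0
  have hPw : ∀ r, P r → r ≤ w := by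
    intro r hr
    obtain ⟨a, -, x, hx⟩ := hr 0
    exact hx.trans ((Matrix.rank_le_width _))
  set r := Nat.findGreatest P w with hr
  have hPr : P r := Nat.findGreatest_spec (hPw 1 hP1) hP1
  have hr1 : 1 ≤ r := Nat.le_findGreatest (hPw 1 hP1) hP1
  have hnP : ¬ P (r + 1) := by
    intro h
    have := Nat.le_findGreatest (hPw _ h) h
    omega
  obtain ⟨M₀, hM₀⟩ : ∃ M₀, ∀ a, Fac a M₀ → ∀ x : ℕ → σ → K, (Pr a x M₀).rank ≤ r := by
    simp only [hPdef, not_forall, not_exists, not_and, not_le] at hnP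
    obtain ⟨M₀, h⟩ := hnP
    exact ⟨M₀, fun a ha x => by have := h a ha x; omega⟩
  obtain ⟨M, hM, hrank⟩ : ∃ M, 1 ≤ M ∧
      ∀ a, Fac a M → ∀ x : ℕ → σ → K, (Pr a x M).rank ≤ r := by
    refine ⟨M₀ + 1, by omega, ?_⟩
    intro a ha x
    have h1 : Fac a M₀ := by
      have := hfac a 0 M₀ (M₀ + 1) ha (by omega)
      simpa using this
    calc (Pr a x (M₀ + 1)).rank = (mat (a M₀) (x M₀) * Pr a x M₀).rank := rfl
      _ ≤ (Pr a x M₀).rank := Matrix.rank_mul_le_right _ _
      _ ≤ r := hM₀ a h1 x
  obtain ⟨p, hp⟩ := window_family (F := F) (σ := σ) (K := K) w r hM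
  refine ⟨M, fun j s => p (j % (2 * M), s), by omega, ?_, ?_⟩
  · intro j
    funext s
    simp
  · intro k
    obtain ⟨a, ha, x, hx⟩ := hPr (2 * M * (k + 1))
    refine ⟨a, ha, ?_⟩
    obtain ⟨ξ, hξ⟩ : ∃ ξ : ℕ → σ → K, ξ = fun j s => p (j % (2 * M), s) := ⟨_, rfl⟩
    rw [← hξ]
    obtain ⟨N, hN2, hN⟩ : ∃ N, 2 ≤ N ∧ 2 * M * (k + 1) = N * M :=
      ⟨2 * (k + 1), by omega, by ring⟩
    rw [hN] at ha hx ⊢
    have hle : ∀ i, i < N → i * M + M ≤ N * M := by
      intro i hi
      calc i * M + M = (i + 1) * M := by ring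
        _ ≤ N * M := Nat.mul_le_mul_right _ hi
    have h2 : ∀ i, i + 1 < N → r ≤
        (Pr (fun j => a ((i + 1) * M + j)) (fun j => ξ ((i + 1) * M + j)) M *
          Pr (fun j => a (i * M + j)) (fun j => ξ (i * M + j)) M).rank := by
      intro i hi
      have e1 : Pr (fun j => a ((i + 1) * M + j)) (fun j => ξ ((i + 1) * M + j)) M *
          Pr (fun j => a (i * M + j)) (fun j => ξ (i * M + j)) M
          = Pr (fun j => a (i * M + j)) (fun j => ξ (i * M + j)) (2 * M) := by
        rw [two_mul, Pr_add]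
        have e0 : ∀ j, (i + 1) * M + j = i * M + (M + j) := fun j => by ring
        simp only [e0]
      rw [e1]
      have hwin : (i * M + 2 * M) ≤ N * M := by
        have := hle (i + 1) hi
        calc i * M + 2 * M = (i + 1) * M + M := by ring
          _ ≤ N * M := this
      have e2 : Pr (fun j => a (i * M + j)) (fun j => ξ (i * M + j)) (2 * M)
          = Pr (fun j => a (i * M + j))
            (fun j s => p (((if (decide (i % 2 = 1)) then M else 0) + j) % (2 * M), s)) (2 * M) := by
        apply Pr_congr (fun _ _ => rfl)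
        intro j hj
        funext s
        simp only [hξ]
        congr 2
        by_cases hi2 : i % 2 = 1
        · simp only [hi2, decide_true, if_true]
          obtain ⟨t, rfl⟩ : ∃ t, i = 2 * t + 1 := ⟨i / 2, by omega⟩
          rw [show (2 * t + 1) * M + j = (M + j) + (2 * M) * t by ring, Nat.add_mul_mod_self_left]
        · simp only [hi2, decide_false, Bool.false_eq_true, if_false]
          obtain ⟨t, rfl⟩ : ∃ t, i = 2 * t := ⟨i / 2, by omega⟩
          rw [show (2 * t) * M + j = (0 + j) + (2 * M) * t by ring, Nat.add_mul_mod_self_left]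
      rw [e2]
      exact hp _ _ (window_rank a x (i * M) (2 * M) (N * M) hwin hx) _
    have h1 : ∀ i < N, (Pr (fun j => a (i * M + j)) (fun j => ξ (i * M + j)) M).rank ≤ r := by
      intro i hi
      exact hrank _ (hfac a (i * M) M (N * M) ha (hle i hi)) _
    have hch := chain_rank (r := r)
      (fun i => Pr (fun j => a (i * M + j)) (fun j => ξ (i * M + j)) M)
      (fun i => Pr a ξ (i * M)) (by simp [Pr]) (fun i => by
        have e0 : (i + 1) * M = i * M + M := by ring
        simp only [e0]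
        exact Pr_add a ξ (i * M) M) N h1 h2 (N - 1) (by omega)
    have hN1 : N - 1 + 1 = N := by omega
    rw [hN1] at hch
    intro h0
    have h3 : (Pr a ξ (N * M)).rank = 0 := by rw [h0]; exact Matrix.rank_zero
    have h4 : r ≤ (Pr (fun j => a ((N - 1) * M + j)) (fun j => ξ ((N - 1) * M + j)) M).rank := by
      have h5 := h2 (N - 2) (by omega)
      have h6 : N - 2 + 1 = N - 1 := by omega
      rw [h6] at h5
      exact h5.trans (Matrix.rank_mul_le_left _ _)
    unfold Matrix.rank at h3 h4
    rw [hch] at h3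
    omega

end main

end Pool.Agent.Hhelper95.NilAug
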